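import Mathlib
import Pool.Agent.V11180.ProdInter

/-!
# MP_078e15_co: every set of positive integers containing 1 is realised by a decreasing sequence
-/

set_option autoImplicit false

namespace Pool.Agent.Results.MP_078e15_co.AllRealised

open Pool.Agent.V11180.ProdInter

universe v

/-- The product intersection sets of asymptotically strictly decreasing sequences of subsets of
semigroups are exactly the sets of positive integers which contain `1`. -/
theorem result (X : Set ℕ) : X ∈ HstarN.{v} ↔ 1 ∈ X ∧ ∀ h ∈ X, 1 ≤ h :=
  mem_HstarN_iff X

end Pool.Agent.Results.MP_078e15_co.AllRealised
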